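import Mathlib

/-! Rational functions and the shift `X ↦ X - 1`: the only solutions of
`τ x - x = ∑ c_k (1-X)^{-k}` (`k ≥ 1`, `c_k` rational) are the trivial ones. -/

open Polynomial

namespace MZVExp

/-- the shift `X ↦ X - 1` on `ℚ(X)` -/
noncomputable def tau : RatFunc ℚ ≃+* RatFunc ℚ :=
  IsFractionRing.ringEquivOfRingEquiv (K := RatFunc ℚ) (L := RatFunc ℚ)
    (taylorEquiv (-1 : ℚ)).toRingEquiv

lemma tau_alg (p : ℚ[X]) :
    tau (algebraMap ℚ[X] (RatFunc ℚ) p) = algebraMap ℚ[X] (RatFunc ℚ) (taylor (-1) p) := by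
  unfold tau
  rw [IsFractionRing.ringEquivOfRingEquiv_algebraMap]
  rfl

lemma tau_symm_alg (p : ℚ[X]) :
    tau.symm (algebraMap ℚ[X] (RatFunc ℚ) p) = algebraMap ℚ[X] (RatFunc ℚ) (taylor 1 p) := by
  rw [RingEquiv.symm_apply_eq, tau_alg, taylor_taylor]
  simp

lemma root_down (Z : Finset ℂ) (z : ℂ) (hz : z ∈ Z)
    (h : ∀ w ∈ Z, w - 1 ∈ Z ∨ w = 1) : ∃ n : ℕ, z = 1 + n := by
  by_contra hcon
  push Not at hcon
  have key : ∀ n : ℕ, z - n ∈ Z := by
    intro n
    induction n with
    | zero => simpa using hz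
    | succ n ih =>
      rcases h _ ih with h1 | h1
      · have : z - (n : ℂ) - 1 = z - ((n + 1 : ℕ) : ℂ) := by push_cast; ring
        rwa [this] at h1
      · exfalso
        apply hcon n
        linear_combination h1
  have hinj : Function.Injective (fun n : ℕ => z - (n : ℂ)) := by
    intro a b hab
    have : (a : ℂ) = b := by
      simp only at hab
      linear_combination -hab
    exact_mod_cast this
  exact Set.infinite_of_injective_forall_mem hinj (s := (Z : Set ℂ)) (fun n => by exact_mod_cast key n)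
    Z.finite_toSet

lemma root_up (Z : Finset ℂ) (z : ℂ) (hz : z ∈ Z)
    (h : ∀ w ∈ Z, w + 1 ∈ Z ∨ w = 0) : ∃ n : ℕ, z = - n := by
  by_contra hcon
  push Not at hcon
  have key : ∀ n : ℕ, z + n ∈ Z := by
    intro n
    induction n with
    | zero => simpa using hz
    | succ n ih =>
      rcases h _ ih with h1 | h1
      · have : z + (n : ℂ) + 1 = z + ((n + 1 : ℕ) : ℂ) := by push_cast; ring
        rwa [this] at h1
      · exfalso
        apply hcon n
        linear_combination h1
  have hinj : Function.Injective (fun n : ℕ => z + (n : ℂ)) := by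
    intro a b hab
    have : (a : ℂ) = b := by
      simp only at hab
      linear_combination hab
    exact_mod_cast this
  exact Set.infinite_of_injective_forall_mem hinj (s := (Z : Set ℂ)) (fun n => by exact_mod_cast key n)
    Z.finite_toSet

lemma poly_key (p q r : ℚ[X]) (hq : q ≠ 0) (hcop : IsCoprime p q) (m : ℕ)
    (h : (taylor (-1) p * q - p * taylor (-1) q) * (1 - X) ^ m = r * (q * taylor (-1) q)) :
    q.natDegree = 0 := by
  by_contra hdeg
  -- complex roots
  set φ : ℚ →+* ℂ := algebraMap ℚ ℂ with hφ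
  set Q : ℂ[X] := q.map φ with hQ
  have hQ0 : Q ≠ 0 := by
    rw [hQ]; exact (Polynomial.map_ne_zero_iff φ.injective).mpr hq
  set Z : Finset ℂ := Q.roots.toFinset with hZ
  have memZ : ∀ z, z ∈ Z ↔ q.eval₂ φ z = 0 := by
    intro z
    rw [hZ, Multiset.mem_toFinset, mem_roots hQ0, IsRoot.def, hQ, eval_map]
  obtain ⟨u, v, huv⟩ := hcop
  have hpz : ∀ z ∈ Z, p.eval₂ φ z ≠ 0 := by
    intro z hz hp
    have := congrArg (fun f => f.eval₂ φ z) huv
    simp only [eval₂_add, eval₂_mul, eval₂_one, hp, (memZ z).1 hz] at this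
    simp at this
  have htay : ∀ (f : ℚ[X]) (z : ℂ), (taylor (-1) f).eval₂ φ z = f.eval₂ φ (z - 1) := by
    intro f z
    rw [taylor_apply, eval₂_comp]
    congr 1
    simp [sub_eq_add_neg]
  have hE : ∀ z : ℂ, (p.eval₂ φ (z - 1) * q.eval₂ φ z - p.eval₂ φ z * q.eval₂ φ (z - 1)) *
      (1 - z) ^ m = r.eval₂ φ z * (q.eval₂ φ z * q.eval₂ φ (z - 1)) := by
    intro z
    have := congrArg (fun f => f.eval₂ φ z) h
    simp only [eval₂_mul, eval₂_sub, eval₂_pow, eval₂_one, eval₂_X, htay] at this
    exact this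
  have hdown : ∀ w ∈ Z, w - 1 ∈ Z ∨ w = 1 := by
    intro w hw
    have h1 := hE w
    rw [(memZ w).1 hw] at h1
    by_contra hcon
    push Not at hcon
    have h2 : p.eval₂ φ w * q.eval₂ φ (w - 1) * (1 - w) ^ m = 0 := by linear_combination -h1
    have h3 : (1 - w) ≠ 0 := fun h => hcon.2 (by linear_combination -h)
    have h4 : q.eval₂ φ (w - 1) ≠ 0 := fun h => hcon.1 ((memZ _).2 h)
    exact (mul_ne_zero (mul_ne_zero (hpz w hw) h4) (pow_ne_zero m h3)) h2
  have hup : ∀ w ∈ Z, w + 1 ∈ Z ∨ w = 0 := by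
    intro w hw
    have h1 := hE (w + 1)
    have hw1 : w + 1 - 1 = w := by ring
    rw [hw1, (memZ w).1 hw] at h1
    by_contra hcon
    push Not at hcon
    have h2 : p.eval₂ φ w * q.eval₂ φ (w + 1) * (1 - (w + 1)) ^ m = 0 := by linear_combination h1
    have h3 : (1 - (w + 1)) ≠ 0 := fun h => hcon.2 (by linear_combination -h)
    have h4 : q.eval₂ φ (w + 1) ≠ 0 := fun h => hcon.1 ((memZ _).2 h)
    exact (mul_ne_zero (mul_ne_zero (hpz w hw) h4) (pow_ne_zero m h3)) h2
  -- a root exists
  have hQdeg : Q.degree ≠ 0 := by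
    intro h0
    apply hdeg
    have : Q.natDegree = 0 := natDegree_eq_of_degree_eq_some h0
    rwa [hQ, natDegree_map] at this
  obtain ⟨z, hz⟩ := IsAlgClosed.exists_root Q hQdeg
  have hzZ : z ∈ Z := by
    rw [hZ, Multiset.mem_toFinset, mem_roots hQ0]; exact hz
  obtain ⟨n, hn⟩ := root_down Z z hzZ hdown
  obtain ⟨n', hn'⟩ := root_up Z z hzZ hup
  have : (1 + n + n' : ℂ) = 0 := by
    rw [hn] at hn'
    linear_combination hn'
  have h5 : ((1 + n + n' : ℕ) : ℂ) = 0 := by push_cast; exact this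
  have h6 : 1 + n + n' = 0 := by exact_mod_cast h5
  omega

/-- `1/(1-X)` -/
noncomputable def sK : RatFunc ℚ := (algebraMap ℚ[X] (RatFunc ℚ) (1 - X))⁻¹

lemma one_sub_X_ne : (1 - X : ℚ[X]) ≠ 0 := by
  intro h
  have := congrArg (fun f => f.eval 0) h
  simp at this

lemma one_sub_X_ne' : algebraMap ℚ[X] (RatFunc ℚ) (1 - X) ≠ 0 :=
  (map_ne_zero_iff _ (IsFractionRing.injective ℚ[X] (RatFunc ℚ))).mpr one_sub_X_ne

/-- periodic polynomials are constant -/
lemma periodic_const (p : ℚ[X]) (h : taylor (-1) p = p) : p = C (p.eval 0) := by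
  have key : ∀ n : ℕ, p.eval (-(n : ℚ)) = p.eval 0 := by
    intro n
    induction n with
    | zero => simp
    | succ n ih =>
      rw [← ih]
      have := congrArg (fun f => f.eval (-(n : ℚ))) h
      simp only [taylor_eval] at this
      rw [← this]
      congr 1
      push_cast; ring
  apply eq_of_infinite_eval_eq
  apply Set.infinite_of_injective_forall_mem (f := fun n : ℕ => (-(n : ℚ)))
  · intro a b hab
    simpa using hab
  · intro n
    simp [key n]

theorem shift_key (x : RatFunc ℚ) (m : ℕ) (c : ℕ → ℚ)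
    (h : tau x - x = ∑ k ∈ Finset.range m, algebraMap ℚ[X] (RatFunc ℚ) (C (c k)) * sK ^ (k + 1)) :
    (∀ k < m, c k = 0) ∧ ∃ r : ℚ, x = algebraMap ℚ[X] (RatFunc ℚ) (C r) := by
  set A := algebraMap ℚ[X] (RatFunc ℚ) with hA
  have Ainj : Function.Injective A := IsFractionRing.injective ℚ[X] (RatFunc ℚ)
  set r : ℚ[X] := ∑ k ∈ Finset.range m, C (c k) * (1 - X) ^ (m - (k + 1)) with hr
  have hs : ∀ k ∈ Finset.range m, A (C (c k)) * sK ^ (k + 1) * A (1 - X) ^ m
      = A (C (c k) * (1 - X) ^ (m - (k + 1))) := by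
    intro k hk
    have hk' : m = (k + 1) + (m - (k + 1)) := by
      have := Finset.mem_range.1 hk
      omega
    have : sK ^ (k + 1) * A (1 - X) ^ (k + 1) = 1 := by
      rw [← mul_pow, sK, inv_mul_cancel₀ one_sub_X_ne', one_pow]
    have h2 : A (1 - X) ^ m = A (1 - X) ^ (k + 1) * A (1 - X) ^ (m - (k + 1)) := by
      rw [← pow_add, ← hk']
    rw [h2, map_mul, map_pow]
    linear_combination (A (C (c k)) * A (1 - X) ^ (m - (k + 1))) * this
  have hmul : (tau x - x) * A (1 - X) ^ m = A r := by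
    rw [h, Finset.sum_mul, hr, map_sum]
    exact Finset.sum_congr rfl hs
  -- x = p/q
  set p := x.num with hp
  set q := x.denom with hq
  have hq0 : q ≠ 0 := x.denom_ne_zero
  have hcop : IsCoprime p q := x.isCoprime_num_denom
  have hx : x = A p / A q := (RatFunc.num_div_denom x).symm
  have hAq : A q ≠ 0 := (map_ne_zero_iff _ Ainj).mpr hq0
  have htq0 : taylor (-1) q ≠ 0 := by
    intro h0; exact hq0 ((taylor_eq_zero _ _).1 h0)
  have hAtq : A (taylor (-1) q) ≠ 0 := (map_ne_zero_iff _ Ainj).mpr htq0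
  have htx : tau x = A (taylor (-1) p) / A (taylor (-1) q) := by
    rw [hx, map_div₀, hA, tau_alg, tau_alg]
  have hid : (taylor (-1) p * q - p * taylor (-1) q) * (1 - X) ^ m = r * (q * taylor (-1) q) := by
    apply Ainj
    rw [map_mul, map_mul, map_mul, map_sub, map_mul, map_mul, map_pow, ← hmul, htx, hx]
    field_simp
  have hq1 := poly_key p q r hq0 hcop m hid
  -- q is constant, x is a polynomial
  obtain ⟨q0, hq0'⟩ : ∃ q0 : ℚ, q = C q0 := ⟨q.coeff 0, eq_C_of_natDegree_eq_zero hq1⟩
  have hq00 : q0 ≠ 0 := by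
    intro h0; apply hq0; rw [hq0', h0, C_0]
  set P : ℚ[X] := C q0⁻¹ * p with hP
  have hxP : x = A P := by
    rw [hx, hq0', hP, map_mul, div_eq_iff (by rw [← hq0']; exact hAq)]
    have : A (C q0⁻¹) * A (C q0) = 1 := by
      rw [← map_mul, ← C_mul, inv_mul_cancel₀ hq00, C_1, map_one]
    linear_combination -(A p) * this
  have hid2 : (taylor (-1) P - P) * (1 - X) ^ m = r := by
    apply Ainj
    rw [map_mul, map_sub, map_pow, ← hmul, hxP]
    congr 2
    exact (tau_alg P).symm
  -- degrees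
  have hdeg1 : (1 - X : ℚ[X]).natDegree = 1 := by
    have : (1 - X : ℚ[X]) = -(X - C 1) := by simp
    rw [this, natDegree_neg, natDegree_X_sub_C]
  have hrdeg : m = 0 ∨ r.natDegree < m := by
    rcases Nat.eq_zero_or_pos m with h0 | h0
    · left; exact h0
    · right
      have : r.natDegree ≤ m - 1 := by
        rw [hr]
        apply natDegree_sum_le_of_forall_le
        intro k hk
        have h1 : (C (c k) * (1 - X : ℚ[X]) ^ (m - (k + 1))).natDegree ≤ m - (k + 1) := by
          refine (natDegree_C_mul_le _ _).trans ?_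
          rw [natDegree_pow, hdeg1, mul_one]
        omega
      omega
  have hzero : taylor (-1) P - P = 0 := by
    by_contra hne
    have h1 : ((taylor (-1) P - P) * (1 - X) ^ m).natDegree =
        (taylor (-1) P - P).natDegree + m := by
      rw [natDegree_mul hne (pow_ne_zero _ one_sub_X_ne), natDegree_pow, hdeg1, mul_one]
    rcases hrdeg with h0 | h0
    · -- m = 0: then r = 0
      have hr0 : r = 0 := by
        rw [hr, h0]; simp
      rw [h0, pow_zero, mul_one] at hid2
      exact hne (hid2.trans hr0)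
    · rw [hid2] at h1
      omega
  have hr0 : r = 0 := by rw [← hid2, hzero, zero_mul]
  constructor
  · intro k hk
    have h1 := congrArg (fun f : ℚ[X] => f.comp (1 - X)) hr0
    simp only [hr, zero_comp] at h1
    rw [sum_comp] at h1
    have h2 : ∀ i ∈ Finset.range m, (C (c i) * (1 - X : ℚ[X]) ^ (m - (i + 1))).comp (1 - X)
        = C (c i) * X ^ (m - (i + 1)) := by
      intro i _
      simp
    rw [Finset.sum_congr rfl h2] at h1
    have h3 := congrArg (fun f => coeff f (m - (k + 1))) h1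
    simp only [finsetSum_coeff, coeff_C_mul, coeff_X_pow, coeff_zero] at h3
    rw [Finset.sum_eq_single k] at h3
    · simpa using h3
    · intro b hb hbk
      have hb' := Finset.mem_range.1 hb
      rw [if_neg (by omega), mul_zero]
    · intro hk'
      exact absurd (Finset.mem_range.2 hk) hk'
  · refine ⟨P.eval 0, ?_⟩
    rw [hxP]
    exact congrArg A (periodic_const P (sub_eq_zero.1 hzero))

/-- a rational function that is invariant under the shift is constant -/
lemma fixed_const (x : RatFunc ℚ) (h : tau x = x) :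
    ∃ r : ℚ, x = algebraMap ℚ[X] (RatFunc ℚ) (C r) := by
  have := (shift_key x 0 (fun _ => 0) (by simp [h])).2
  exact this

/-- `b(X-1) - b(X) = 1/X` has no solution -/
lemma no_log (x : RatFunc ℚ) (r : ℚ) (hr : r ≠ 0)
    (h : tau x - x = algebraMap ℚ[X] (RatFunc ℚ) (C r) * (algebraMap ℚ[X] (RatFunc ℚ) X)⁻¹) :
    False := by
  -- put `y(X) = x(1-X)`... we use the equation for `tau x` instead
  have h1 := congrArg tau h
  rw [map_sub, map_mul, map_inv₀, tau_alg, tau_alg, taylor_C, taylor_X] at h1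
  have h2 : (algebraMap ℚ[X] (RatFunc ℚ) (X + C (-1)))⁻¹ = - sK := by
    rw [sK, ← inv_neg, ← map_neg]
    congr 2
    simp [sub_eq_add_neg, add_comm]
  rw [h2] at h1
  have h3 := (shift_key (tau x) 1 (fun _ => -r) (by
    rw [h1]; simp)).1 0 (by norm_num)
  exact hr (by simpa using h3)

end MZVExp
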